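import Mathlib

namespace Pool.Agent.Results.MP_285f62_co.Tripartite

open SimpleGraph Finset

/-- The blow-up `G(t)`: each vertex `v` becomes the independent set `{v} × Fin t`. -/
def blowup {V : Type} (G : SimpleGraph V) (t : ℕ) : SimpleGraph (V × Fin t) :=
  G.comap Prod.fst

/-- The vertex set is partitioned into triangles. -/
def TriangleFactor {V : Type} (H : SimpleGraph V) : Prop :=
  ∃ P : Set (Finset V), (∀ s ∈ P, H.IsNClique 3 s) ∧ ∀ v, ∃! s, s ∈ P ∧ v ∈ s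

lemma factor_of_cover {V ι : Type} [DecidableEq V] [Fintype ι] (G : SimpleGraph V) (t : ℕ)
    (T : ι → Finset V) (hT : ∀ i, G.IsNClique 3 (T i))
    (hc : ∀ v, Fintype.card {i // v ∈ T i} = t) : TriangleFactor (blowup G t) := by
  classical
  have e : ∀ v, {i // v ∈ T i} ≃ Fin t := fun v => Fintype.equivFinOfCardEq (hc v)
  let S : ι → Finset (V × Fin t) := fun i =>
    (T i).attach.image (fun v => (v.1, e v.1 ⟨i, v.2⟩))
  have mem : ∀ i v a, (v, a) ∈ S i ↔ ∃ h : v ∈ T i, e v ⟨i, h⟩ = a := by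
    intro i v a
    simp only [S, mem_image, mem_attach, true_and, Subtype.exists, Prod.mk.injEq]
    constructor
    · rintro ⟨w, hw, rfl, h⟩
      exact ⟨hw, h⟩
    · rintro ⟨h, h'⟩
      exact ⟨v, h, rfl, h'⟩
  refine ⟨Set.range S, ?_, ?_⟩
  · rintro _ ⟨i, rfl⟩
    refine ⟨?_, ?_⟩
    · rintro ⟨v, a⟩ hv ⟨w, b⟩ hw hne
      obtain ⟨h1, h2⟩ := (mem i v a).1 hv
      obtain ⟨h3, h4⟩ := (mem i w b).1 hw
      refine (hT i).1 h1 h3 ?_
      rintro rfl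
      exact hne (by rw [← h2, ← h4])
    · rw [card_image_of_injective, card_attach, (hT i).2]
      intro v w h
      exact Subtype.ext (congrArg Prod.fst h)
  · rintro ⟨v, a⟩
    refine ⟨S ((e v).symm a).1, ⟨⟨_, rfl⟩, (mem _ v a).2 ⟨((e v).symm a).2, by simp⟩⟩, ?_⟩
    rintro _ ⟨⟨j, rfl⟩, hj⟩
    obtain ⟨h1, h2⟩ := (mem j v a).1 hj
    rw [← h2]
    simp

def E : List (Fin 15 × Fin 15) :=
  [(0, 1), (0, 4), (0, 8), (0, 11), (1, 2), (1, 3), (1, 11), (2, 3), (2, 6), (2, 7), (3, 5),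
   (3, 7), (4, 5), (4, 8), (4, 12), (5, 7), (5, 9), (5, 10), (5, 12), (6, 7), (6, 8), (6, 13),
   (6, 14), (7, 8), (9, 10), (9, 11), (10, 11), (12, 13), (12, 14), (13, 14)]

def W : SimpleGraph (Fin 15) := SimpleGraph.fromRel (fun a b => (a, b) ∈ E)

instance : DecidableRel W.Adj := fun a b =>
  decidable_of_iff (a ≠ b ∧ ((a, b) ∈ E ∨ (b, a) ∈ E)) (by simp [W, fromRel_adj])

def T : Fin 12 → Finset (Fin 15) :=
  ![{0, 1, 11}, {0, 4, 8}, {1, 2, 3}, {2, 3, 7}, {3, 5, 7}, {2, 6, 7}, {6, 7, 8}, {6, 13, 14},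
    {4, 5, 12}, {5, 9, 10}, {9, 10, 11}, {12, 13, 14}]

lemma T_clique : ∀ i, W.IsNClique 3 (T i) := by decide +kernel

lemma all_tri : ∀ a b, W.Adj a b → ∀ c, W.Adj a c → W.Adj b c → ∃ i, T i = {a, b, c} := by
  decide +kernel

lemma T_inj : Function.Injective T := by decide +kernel

lemma no_cover : ∀ x0 x1 x2 x3 x4 x5 x6 x7 x8 x9 x10 x11 : Bool,
    ¬ ∀ v, ∃ i, (![x0, x1, x2, x3, x4, x5, x6, x7, x8, x9, x10, x11] i = true ∧ v ∈ T i) ∧
      ∀ j, ![x0, x1, x2, x3, x4, x5, x6, x7, x8, x9, x10, x11] j = true ∧ v ∈ T j → j = i := by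
  decide +kernel

lemma no_factor : ¬ TriangleFactor W := by
  classical
  rintro ⟨P, h1, h2⟩
  let x : Fin 12 → Bool := fun i => decide (T i ∈ P)
  have hx : ![x 0, x 1, x 2, x 3, x 4, x 5, x 6, x 7, x 8, x 9, x 10, x 11] = x := by
    funext i; fin_cases i <;> rfl
  apply no_cover (x 0) (x 1) (x 2) (x 3) (x 4) (x 5) (x 6) (x 7) (x 8) (x 9) (x 10) (x 11)
  rw [hx]
  intro v
  obtain ⟨s, ⟨hs, hv⟩, hu⟩ := h2 v
  obtain ⟨a, b, c, hab, hac, hbc, rfl⟩ := is3Clique_iff.1 (h1 s hs)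
  obtain ⟨i, hi⟩ := all_tri a b hab c hac hbc
  refine ⟨i, ⟨by simp [x, hi, hs], hi ▸ hv⟩, ?_⟩
  rintro j ⟨hj, hvj⟩
  apply T_inj
  rw [hi]
  exact hu _ ⟨by simpa [x] using hj, hvj⟩

def w2 : Fin 12 → ℕ := ![1, 1, 1, 1, 0, 0, 1, 1, 1, 1, 1, 1]
def w3 : Fin 12 → ℕ := ![1, 2, 2, 0, 1, 1, 1, 1, 1, 1, 2, 2]

lemma s2 : ∀ v, ∑ i, (if v ∈ T i then w2 i else 0) = 2 := by decide +kernel
lemma s3 : ∀ v, ∑ i, (if v ∈ T i then w3 i else 0) = 3 := by decide +kernel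

lemma has_factor (a b : ℕ) : TriangleFactor (blowup W (a * 2 + b * 3)) := by
  refine factor_of_cover (ι := Σ i : Fin 12, Fin (a * w2 i + b * w3 i)) W _ (fun x => T x.1)
    (fun x => T_clique x.1) ?_
  intro v
  rw [Fintype.card_subtype, card_filter, Fintype.sum_sigma, ← s2 v, ← s3 v, mul_sum, mul_sum,
    ← sum_add_distrib]
  refine sum_congr rfl fun i _ => ?_
  by_cases h : v ∈ T i <;> simp [h]

theorem result : ∃ G : SimpleGraph (Fin 15),
    (∀ u v, G.Adj u v → u.val % 3 ≠ v.val % 3) ∧ ¬ TriangleFactor G ∧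
      ∀ t, 2 ≤ t → TriangleFactor (blowup G t) := by
  refine ⟨W, by decide +kernel, no_factor, fun t ht => ?_⟩
  have : t = (if t % 2 = 0 then t / 2 else (t - 3) / 2) * 2 + (t % 2) * 3 := by
    split_ifs <;> omega
  rw [this]
  exact has_factor _ _

end Pool.Agent.Results.MP_285f62_co.Tripartite
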